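import Pool.Agent.H4.FV.Stm2
import Pool.Graph.R_seed8.R620.GG.Nil

set_option autoImplicit false

/-! `FV-NIL`: nonabelian nilpotent groups, the two cases. -/

namespace Pool.Agent.H314.FV

open scoped commutatorElement

theorem pow_left {G : Type} [Group G] {a b c : G} (h1 : a * b = c * b * a)
    (h : ∀ z, c * z = z * c) (m : ℕ) : a ^ m * b = c ^ m * b * a ^ m := by
  induction m with
  | zero => simp
  | succ m ih =>
    calc a ^ (m + 1) * b = a ^ m * (a * b) := by rw [pow_succ, mul_assoc]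
      _ = a ^ m * (c * b * a) := by rw [h1]
      _ = (a ^ m * c) * b * a := by simp only [mul_assoc]
      _ = (c * a ^ m) * b * a := by rw [h (a ^ m)]
      _ = c * (a ^ m * b) * a := by simp only [mul_assoc]
      _ = c * (c ^ m * b * a ^ m) * a := by rw [ih]
      _ = c ^ (m + 1) * b * a ^ (m + 1) := by
        rw [pow_succ' c, pow_succ a]
        simp only [mul_assoc]

theorem pow_right {G : Type} [Group G] {a b c : G} (h1 : a * b = c * b * a)
    (h : ∀ z, c * z = z * c) (m : ℕ) : a * b ^ m = c ^ m * b ^ m * a := by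
  induction m with
  | zero => simp
  | succ m ih =>
    calc a * b ^ (m + 1) = (a * b ^ m) * b := by rw [pow_succ, mul_assoc]
      _ = c ^ m * b ^ m * (a * b) := by rw [ih, mul_assoc]
      _ = c ^ m * b ^ m * (c * b * a) := by rw [h1]
      _ = c ^ m * (b ^ m * c) * b * a := by simp only [mul_assoc]
      _ = c ^ m * (c * b ^ m) * b * a := by rw [h (b ^ m)]
      _ = c ^ (m + 1) * b ^ (m + 1) * a := by
        rw [pow_succ c, pow_succ b]
        simp only [mul_assoc]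

theorem cen_pow {G : Type} [Group G] {c : G} (h : ∀ z, c * z = z * c) (m : ℕ) (z : G) :
    c ^ m * z = z * c ^ m := by
  have h1 : Commute c z := h z
  exact h1.pow_left m

theorem odd_part {G : Type} [Group G] (g : G) (h : ¬ 4 ∣ orderOf g) :
    ∃ q : ℕ, Odd q ∧ (g ^ q) ^ 2 = 1 := by
  rcases Nat.even_or_odd (orderOf g) with h1 | h1
  · obtain ⟨q, hq⟩ := h1
    refine ⟨q, ?_, ?_⟩
    · rcases Nat.even_or_odd q with h2 | h2
      · exfalso
        obtain ⟨r, hr⟩ := h2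
        exact h ⟨r, by omega⟩
      · exact h2
    · rw [← pow_mul, show q * 2 = orderOf g by omega, pow_orderOf_eq_one]
  · exact ⟨orderOf g, h1, by rw [pow_orderOf_eq_one, one_pow]⟩

/-- the second case -/
theorem two {G : Type} [Group G] {a b c : G} (h1 : a * b = c * b * a) (h : ∀ z, c * z = z * c)
    (hc : c ≠ 1) (hc2 : c ^ 2 = 1) :
    ∃ x y z c : G, c = x⁻¹ * y⁻¹ * x * y ∧ x * c = c * x ∧ y * c = c * y ∧
      (∀ n : ℕ, c ^ n = 1 → 2 ∣ n) ∧ ∀ n : ℕ, z ^ n = 1 → 4 ∣ n := by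
  have hcn : ∀ n : ℕ, c ^ n = 1 → 2 ∣ n := by
    intro n hn
    have h2 : orderOf c = 2 := by
      have : Fact (Nat.Prime 2) := ⟨Nat.prime_two⟩
      exact orderOf_eq_prime hc2 hc
    rw [← h2]
    exact orderOf_dvd_of_pow_eq_one hn
  have hcab : c = (a⁻¹)⁻¹ * (b⁻¹)⁻¹ * a⁻¹ * b⁻¹ := by
    rw [inv_inv, inv_inv, h1]
    group
  suffices hz : ∃ z : G, ∀ n : ℕ, z ^ n = 1 → 4 ∣ n by
    obtain ⟨z, hz⟩ := hz
    exact ⟨a⁻¹, b⁻¹, z, c, hcab, (h _).symm, (h _).symm, hcn, hz⟩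
  by_cases ha : 4 ∣ orderOf a
  · exact ⟨a, fun n hn => ha.trans (orderOf_dvd_of_pow_eq_one hn)⟩
  by_cases hb : 4 ∣ orderOf b
  · exact ⟨b, fun n hn => hb.trans (orderOf_dvd_of_pow_eq_one hn)⟩
  obtain ⟨p, hp, hp2⟩ := odd_part a ha
  obtain ⟨q, hq, hq2⟩ := odd_part b hb
  have h3 : a ^ p * b ^ q = (c ^ p) ^ q * b ^ q * a ^ p :=
    pow_right (pow_left h1 h p) (cen_pow h p) q
  have h4 : (c ^ p) ^ q = c := by
    rw [← pow_mul]
    obtain ⟨r, hr⟩ := hp.mul hq
    rw [hr, pow_succ, pow_mul, hc2, one_pow, one_mul]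
  rw [h4] at h3
  have h5 : (a ^ p * b ^ q) ^ 2 = c := by
    calc (a ^ p * b ^ q) ^ 2 = (a ^ p * b ^ q) * (a ^ p * b ^ q) := pow_two _
      _ = (c * b ^ q * a ^ p) * (a ^ p * b ^ q) := by rw [← h3]
      _ = c * b ^ q * (a ^ p) ^ 2 * b ^ q := by rw [pow_two (a ^ p)]; simp only [mul_assoc]
      _ = c * (b ^ q) ^ 2 := by rw [hp2, mul_one, pow_two (b ^ q), mul_assoc]
      _ = c := by rw [hq2, mul_one]
  refine ⟨a ^ p * b ^ q, fun n hn => ?_⟩
  have h6 : orderOf (a ^ p * b ^ q) = 2 ^ (1 + 1) := by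
    have : Fact (Nat.Prime 2) := ⟨Nat.prime_two⟩
    apply orderOf_eq_prime_pow
    · rw [pow_one, h5]
      exact hc
    · rw [pow_succ, pow_one, pow_mul, h5, hc2]
  have h7 := orderOf_dvd_of_pow_eq_one hn
  rw [h6] at h7
  exact h7

theorem leaf_nil : Pool.Agent.H4.FV.S_nil := by
  intro G _ hnil hne
  obtain ⟨a, b, hc, hcen⟩ := Pool.Agent.R620.GG.exists_central hne
  by_cases hp : ∃ p : ℕ, p.Prime ∧ p ≠ 2 ∧ p ∣ orderOf ⁅a, b⁆
  · obtain ⟨p, hpp, hp2, hpd⟩ := hp
    left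
    refine ⟨p, hpp, hp2, a, b, hcen, fun n hn => ?_⟩
    exact (Int.natCast_dvd_natCast.2 hpd).trans (orderOf_dvd_iff_zpow_eq_one.2 hn)
  · right
    push Not at hp
    obtain ⟨c, hce⟩ : ∃ c, c = ⁅a, b⁆ := ⟨_, rfl⟩
    have h1 : a * b = c * b * a := by
      rw [hce, commutatorElement_def]
      group
    rw [← hce] at hc hcen hp
    have h0 : orderOf c ≠ 0 := by
      intro h0
      exact hp 3 Nat.prime_three (by norm_num) (by rw [h0]; exact dvd_zero 3)
    have h2 := Nat.eq_prime_pow_of_unique_prime_dvd (p := 2) h0 (fun {d} hd hdd => by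
      by_contra h
      exact hp d hd h hdd)
    obtain ⟨r, hr⟩ : ∃ r, r = (orderOf c).primeFactorsList.length := ⟨_, rfl⟩
    rw [← hr] at h2
    cases r with
    | zero =>
      exfalso
      rw [pow_zero, orderOf_eq_one_iff] at h2
      exact hc h2
    | succ r =>
      refine two (a := a ^ (2 ^ r)) (b := b) (c := c ^ (2 ^ r)) (pow_left h1 hcen _)
        (cen_pow hcen _) ?_ ?_
      · intro h3
        have h4 := Nat.le_of_dvd (by positivity) (orderOf_dvd_of_pow_eq_one h3)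
        rw [h2, pow_succ] at h4
        have : 0 < 2 ^ r := by positivity
        omega
      · rw [← pow_mul, ← pow_succ, ← h2, pow_orderOf_eq_one]

end Pool.Agent.H314.FV
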